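import Pool.Agent.Y875.UE.Stm

/-!
The field with `q ^ f` elements and its index function (helper961, job FLD of helper875).
-/

set_option autoImplicit false

namespace Pool.Agent.Y961.UE

open Pool.Agent.Y875.UE

theorem f_ne {q e u k f M : ℕ} (h : Lev q e u k f M) : f ≠ 0 := by
  rintro rfl
  have h1 := h.card
  have h2 : 0 < 2 ^ k * M := Nat.mul_pos (by positivity) h.hM.pos
  rw [pow_zero] at h1
  omega

theorem t : S_FLD := by
  intro q e u k f M _ h
  classical
  have hM0 : 0 < M := h.hM.pos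
  have hf := f_ne h
  have : Fintype (GaloisField q f) := Fintype.ofFinite _
  have hcE : Fintype.card (GaloisField q f) = q ^ f := by
    rw [← Nat.card_eq_fintype_card]
    exact GaloisField.card q f hf
  have hcU : Nat.card (GaloisField q f)ˣ = 2 ^ k * M := by
    rw [Nat.card_units, GaloisField.card q f hf, h.card]
    omega
  have hN0 : 0 < 2 ^ k * M := Nat.mul_pos (by positivity) hM0
  obtain ⟨φ⟩ : Nonempty (Multiplicative (ZMod (2 ^ k * M)) ≃* (GaloisField q f)ˣ) := by
    rw [← hcU]
    exact ⟨zmodCyclicMulEquiv inferInstance⟩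
  have hg : ∀ n : ℕ, (φ (Multiplicative.ofAdd 1)) ^ n = 1 ↔ 2 ^ k * M ∣ n := by
    intro n
    rw [← map_pow, ← ofAdd_nsmul, nsmul_one, map_eq_one_iff φ φ.injective, ← ofAdd_zero,
      Multiplicative.ofAdd.injective.eq_iff, ZMod.natCast_eq_zero_iff]
  have hcop : Nat.Coprime M (2 ^ k) := (Nat.Coprime.pow_right k h.hM.coprime_two_right)
  let c : ZMod (2 ^ k * M) →+* ZMod (2 ^ k) := ZMod.castHom (Dvd.intro _ rfl) _
  let l : GaloisField q f → ZMod (2 ^ k) := fun w => if hw : w = 0 then 0 else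
    (M : ZMod (2 ^ k))⁻¹ * c (Multiplicative.toAdd (φ.symm (Units.mk0 w hw)))
  let z : GaloisField q f := ((φ (Multiplicative.ofAdd 1) ^ M : (GaloisField q f)ˣ) : GaloisField q f)
  have hk : k - 1 + 1 = k := by have := h.hk; omega
  refine ⟨GaloisField q f, inferInstance, inferInstance, inferInstance, z, l, hcE, ?_, ?_, ?_⟩
  · have h1 : (z ^ 2 ^ (k - 1)) ^ 2 = 1 := by
      rw [← pow_mul, ← pow_succ, hk]
      change ((φ (Multiplicative.ofAdd 1) ^ M : (GaloisField q f)ˣ) : GaloisField q f) ^ 2 ^ k = 1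
      rw [← Units.val_pow_eq_pow_val, ← pow_mul, (hg _).2 (by rw [mul_comm]), Units.val_one]
    rcases sq_eq_one_iff.1 h1 with h2 | h2
    · exfalso
      have h3 : (φ (Multiplicative.ofAdd 1)) ^ (M * 2 ^ (k - 1)) = 1 := by
        apply Units.ext
        rw [pow_mul, Units.val_pow_eq_pow_val, Units.val_one]
        exact h2
      have h4 := Nat.le_of_dvd (Nat.mul_pos hM0 (by positivity)) ((hg _).1 h3)
      have h5 : 2 ^ k = 2 * 2 ^ (k - 1) := by rw [← pow_succ', hk]
      have h6 : 0 < M * 2 ^ (k - 1) := Nat.mul_pos hM0 (by positivity)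
      rw [h5] at h4
      nlinarith
    · exact h2
  · intro x y hx hy
    have hxy : x * y ≠ 0 := mul_ne_zero hx hy
    change (if hw : x * y = 0 then 0 else _) = (if hw : x = 0 then 0 else _) +
      (if hw : y = 0 then 0 else _)
    rw [dif_neg hxy, dif_neg hx, dif_neg hy]
    have h1 : Units.mk0 (x * y) hxy = Units.mk0 x hx * Units.mk0 y hy := by
      apply Units.ext; rfl
    rw [h1, map_mul, toAdd_mul, map_add, mul_add]
  · have hz : z ≠ 0 := Units.ne_zero _
    change (if hw : z = 0 then 0 else _) = _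
    rw [dif_neg hz]
    have h1 : Units.mk0 z hz = φ (Multiplicative.ofAdd 1) ^ M := by
      apply Units.ext; rfl
    rw [h1, map_pow, MulEquiv.symm_apply_apply, toAdd_pow, toAdd_ofAdd, nsmul_one, map_natCast,
      mul_comm]
    exact ZMod.coe_mul_inv_eq_one M hcop

end Pool.Agent.Y961.UE
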