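import Pool.Agent.Y875.UE.Stm

/-!
Units away from `q`, and limits of integers (helper961, job UNIT + LIM of helper875).
-/

set_option autoImplicit false

namespace Pool.Agent.Y961.UE

open Pool.Agent.Y875.UE

theorem norm_char_le {q : ℕ} [Fact q.Prime] {K : Type} [NormedField K] (σ : QB →+* K)
    (χ : MulChar (ZMod q) QB) (x : ZMod q) : ‖σ (χ x)‖ ≤ 1 := by
  by_cases hx : IsUnit x
  · have hx0 : x ≠ 0 := hx.ne_zero
    have h1 : (χ x) ^ (q - 1) = 1 := by
      rw [← map_pow, ZMod.pow_card_sub_one_eq_one hx0, map_one]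
    have h2 : ‖σ (χ x)‖ ^ (q - 1) = 1 := by
      rw [← norm_pow, ← map_pow, h1, map_one, norm_one]
    have h3 : q - 1 ≠ 0 := by
      have := (Fact.out : q.Prime).two_le
      omega
    exact ((pow_eq_one_iff_of_nonneg (norm_nonneg _) h3).1 h2).le
  · rw [MulChar.map_nonunit χ hx, map_zero, norm_zero]
    exact zero_le_one

theorem norm_jac_le {q : ℕ} [Fact q.Prime] {K : Type} [NormedField K] [IsUltrametricDist K]
    (σ : QB →+* K) (χ ψ : MulChar (ZMod q) QB) : ‖σ (jacobiSum χ ψ)‖ ≤ 1 := by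
  unfold jacobiSum
  rw [map_sum]
  refine IsUltrametricDist.norm_sum_le_of_forall_le_of_nonneg zero_le_one fun x _ => ?_
  rw [map_mul, norm_mul]
  exact mul_le_one₀ (norm_char_le σ χ x) (norm_nonneg _) (norm_char_le σ ψ _)

/-- Units away from `q`. -/
theorem t1 : S_UNIT := by
  intro q _ hq u hu χ hχu hχ K _ _ σ hK
  have hr : ringChar (ZMod q) ≠ 2 := by
    rw [ZMod.ringChar_zmod_n]
    exact hq
  have hinj : Function.Injective (Int.castRingHom QB) := Int.cast_injective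
  have hη : eta q QB ≠ 1 := (MulChar.ringHomComp_ne_one_iff hinj).2 (quadraticChar_ne_one hr)
  have hη2 : eta q QB ^ 2 = 1 := by
    have h1 : (quadraticChar (ZMod q)) ^ 2 = 1 := (quadraticChar_isQuadratic (F := ZMod q)).sq_eq_one
    unfold eta
    rw [MulChar.ringHomComp_pow, h1, MulChar.ringHomComp_one]
  have hχη : χ * eta q QB ≠ 1 := by
    intro h
    apply hχ
    have h1 : χ ^ 2 = 1 := by
      have h2 : (χ * eta q QB) ^ 2 = 1 := by rw [h, one_pow]
      rwa [mul_pow, hη2, mul_one] at h2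
    obtain ⟨m, rfl⟩ := hu
    rw [pow_succ, pow_mul, h1, one_pow, one_mul] at hχu
    exact hχu
  have hc : ringChar QB ≠ ringChar (ZMod q) := by
    rw [ZMod.ringChar_zmod_n, ringChar.eq_zero]
    exact (Fact.out : q.Prime).ne_zero.symm
  have h1 := jacobiSum_mul_jacobiSum_inv hc hχ hη hχη
  have h2 := norm_jac_le σ χ (eta q QB)
  have h3 := norm_jac_le σ χ⁻¹ (eta q QB)⁻¹
  have h4 : ‖σ (jacobiSum χ (eta q QB))‖ * ‖σ (jacobiSum χ⁻¹ (eta q QB)⁻¹)‖ = 1 := by
    rw [← norm_mul, ← map_mul, h1, ZMod.card, map_natCast, hK]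
  refine le_antisymm h2 ?_
  have h5 := norm_nonneg (σ (jacobiSum χ (eta q QB)))
  nlinarith

/-- Limits of integers. -/
theorem t2 : S_LIM := by
  intro x k₀ d n hn
  let ι : ℤ_[2] → ℂ_[2] := fun a => algebraMap ℚ_[2] ℂ_[2] (a : ℚ_[2])
  have hι : Isometry ι := by
    refine Isometry.of_dist_eq fun a b => ?_
    rw [dist_eq_norm, dist_eq_norm]
    change ‖algebraMap ℚ_[2] ℂ_[2] (a : ℚ_[2]) - algebraMap ℚ_[2] ℂ_[2] (b : ℚ_[2])‖ = _
    rw [← map_sub, norm_algebraMap', ← PadicInt.coe_sub, PadicInt.padic_norm_e_of_padicInt]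
  have hnat : ∀ m : ℕ, ι (m : ℤ_[2]) = (m : ℂ_[2]) := by
    intro m
    change algebraMap ℚ_[2] ℂ_[2] ((m : ℤ_[2]) : ℚ_[2]) = _
    rw [PadicInt.coe_natCast, map_natCast]
  have hcl : IsClosed (Set.range ι) := hι.isClosedEmbedding.isClosed_range
  have htend : Filter.Tendsto (fun k => ι ((n k : ℕ) : ℤ_[2])) Filter.atTop (nhds x) := by
    rw [tendsto_iff_norm_sub_tendsto_zero]
    have h1 : Filter.Tendsto (fun k : ℕ => ((2 : ℝ)⁻¹) ^ (k - d)) Filter.atTop (nhds 0) :=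
      (tendsto_pow_atTop_nhds_zero_of_lt_one (by norm_num) (by norm_num)).comp
        (Filter.tendsto_sub_atTop_nat d)
    refine squeeze_zero' (Filter.Eventually.of_forall fun k => norm_nonneg _) ?_ h1
    filter_upwards [Filter.eventually_ge_atTop k₀] with k hk
    rw [hnat, norm_sub_rev]
    exact hn k hk
  obtain ⟨C, hC⟩ := hcl.mem_of_tendsto htend (Filter.Eventually.of_forall fun k => ⟨_, rfl⟩)
  refine ⟨C, fun k m => ?_⟩
  have h1 : ‖x - (m : ℂ_[2])‖ = ‖C - (m : ℤ_[2])‖ := by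
    rw [← hC, ← hnat, ← dist_eq_norm, ← dist_eq_norm]
    exact hι.dist_eq C _
  rw [h1]

end Pool.Agent.Y961.UE
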